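import Pool.Agent.Helper56.TX.Mom
import Pool.Agent.Helper57.TX.Defs

/-!
# TX: A3, A4: high moments of a sum over primes on `JJ T = [T/2, 4T]`, and its tail
-/

set_option autoImplicit false
open MeasureTheory Set Filter Topology
open Pool.Agent.Helper57.ED
open Pool.Agent.Helper65.UG

open Pool.Agent.Helper57.TX

namespace Pool.Agent.Helper56.TX

private lemma PW_cont56 {W : ℝ} (hW : 0 < W) : Continuous (PW W) := by
  unfold PW
  apply Continuous.div continuous_const (by fun_prop)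
  intro t
  have := Real.pi_pos
  positivity

private lemma integral_PW_ab56 {W : ℝ} (hW : 0 < W) (a b : ℝ) :
    ∫ t in a..b, PW W t = (Real.arctan (b / W) - Real.arctan (a / W)) / Real.pi := by
  have hpi := Real.pi_pos
  have h1 : ∀ t ∈ uIcc a b, HasDerivAt (fun t => Real.arctan (t / W) / Real.pi) (PW W t) t := by
    intro t _
    have h2 : HasDerivAt (fun t : ℝ => Real.arctan (t / W) / Real.pi) (1 / (1 + (t / W) ^ 2) * (1 / W) / Real.pi) t :=
      (((hasDerivAt_id t).div_const W).arctan).div_const Real.pi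
    have h3 : PW W t = 1 / (1 + (t / W) ^ 2) * (1 / W) / Real.pi := by
      unfold PW
      field_simp
    rw [h3]
    exact h2
  rw [intervalIntegral.integral_eq_sub_of_hasDerivAt h1 ((PW_cont56 hW).intervalIntegrable _ _)]
  ring

private lemma arctan_ge56 {x : ℝ} (hx : 0 < x) : Real.pi / 2 - 1 / x ≤ Real.arctan x := by
  have h1 := Real.arctan_inv_of_pos hx
  have h2 : Real.arctan x⁻¹ ≤ x⁻¹ := by
    have h3 : 0 < x⁻¹ := by positivity
    have h4 := Real.arctan_lt_pi_div_two x⁻¹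
    have h5 : 0 < Real.arctan x⁻¹ := by
      rw [← Real.arctan_zero]; exact Real.arctan_strictMono h3
    have h6 := Real.lt_tan h5 h4
    rw [Real.tan_arctan] at h6
    exact h6.le
  rw [one_div]
  linarith

/-- mass of the kernel on a long interval -/
private lemma PW_mass56 {W H a b γ : ℝ} (hW : 0 < W) (hH : 0 < H) (ha : a + H ≤ γ) (hb : γ ≤ b - H) :
    1 - W / H ≤ ∫ τ in a..b, PW W (γ - τ) := by
  have hpi := Real.pi_pos
  rw [intervalIntegral.integral_comp_sub_left (fun t => PW W t) γ, integral_PW_ab56 hW]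
  have h1 : Real.arctan (H / W) ≤ Real.arctan ((γ - a) / W) :=
    Real.arctan_strictMono.monotone (by gcongr; linarith)
  have h2 : Real.arctan ((γ - b) / W) ≤ -Real.arctan (H / W) := by
    rw [← Real.arctan_neg]
    apply Real.arctan_strictMono.monotone
    rw [← neg_div]
    gcongr
    linarith
  have h3 := arctan_ge56 (show 0 < H / W by positivity)
  have h4 : 1 / (H / W) = W / H := by field_simp
  rw [h4] at h3
  rw [le_div_iff₀ hpi]
  have h5 : 0 ≤ W / H := by positivity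
  have h6 : 2 * (W / H) ≤ Real.pi * (W / H) := by
    apply mul_le_mul_of_nonneg_right _ h5
    linarith [Real.pi_gt_three]
  nlinarith

/-- from the Poisson means to the integral over an interval -/
private lemma avg56 {W H a b c d K : ℝ} (hW : 0 < W) (hH : 0 < H) (hWH : W < H) {f : ℝ → ℝ} (hf : Continuous f) (hf0 : ∀ t, 0 ≤ f t)
    (ha : a + H ≤ c) (hb : d ≤ b - H) (hab : a ≤ b) (hK0 : 0 ≤ K)
    (hK : ∀ τ : ℝ, Integrable (fun t => PW W (t - τ) * f t) ∧ ∫ t, PW W (t - τ) * f t ≤ K) :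
    (1 - W / H) * ∫ t in Icc c d, f t ≤ (b - a) * K := by
  have hη : 0 < 1 - W / H := by
    rw [sub_pos, div_lt_one hH]
    exact hWH
  have hPc : Continuous fun x : ℝ × ℝ => PW W (x.2 - x.1) * f x.2 :=
    ((PW_cont56 hW).comp (continuous_snd.sub continuous_fst)).mul (hf.comp continuous_snd)
  have hPnn : ∀ τ t : ℝ, 0 ≤ PW W (t - τ) * f t := fun τ t => mul_nonneg (PW_pos hW _).le (hf0 t)
  -- the double integral
  have h1 : ∫⁻ τ in Icc a b, ∫⁻ t, ENNReal.ofReal (PW W (t - τ) * f t) ≤ ENNReal.ofReal ((b - a) * K) := by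
    calc ∫⁻ τ in Icc a b, ∫⁻ t, ENNReal.ofReal (PW W (t - τ) * f t)
        ≤ ∫⁻ _ in Icc a b, ENNReal.ofReal K := by
          refine lintegral_mono fun τ => ?_
          rw [← ofReal_integral_eq_lintegral_ofReal (hK τ).1 (Eventually.of_forall fun t => hPnn τ t)]
          exact ENNReal.ofReal_le_ofReal (hK τ).2
      _ = ENNReal.ofReal ((b - a) * K) := by
          rw [setLIntegral_const, Real.volume_Icc, ← ENNReal.ofReal_mul hK0, mul_comm]
  have h2 : ∫⁻ t in Icc c d, ENNReal.ofReal ((1 - W / H) * f t) ≤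
      ∫⁻ τ in Icc a b, ∫⁻ t, ENNReal.ofReal (PW W (t - τ) * f t) := by
    rw [lintegral_lintegral_swap]
    · calc ∫⁻ t in Icc c d, ENNReal.ofReal ((1 - W / H) * f t)
          ≤ ∫⁻ t in Icc c d, ∫⁻ τ in Icc a b, ENNReal.ofReal (PW W (t - τ) * f t) := by
            refine setLIntegral_mono' measurableSet_Icc fun t ht => ?_
            have hm := PW_mass56 (a := a) (b := b) (γ := t) hW hH (by linarith [ht.1]) (by linarith [ht.2])
            rw [intervalIntegral.integral_of_le hab, ← integral_Icc_eq_integral_Ioc] at hm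
            have hci : IntegrableOn (fun τ => PW W (t - τ)) (Icc a b) :=
              ((PW_cont56 hW).comp (continuous_const.sub continuous_id)).integrableOn_Icc
            calc ENNReal.ofReal ((1 - W / H) * f t)
                ≤ ENNReal.ofReal ((∫ τ in Icc a b, PW W (t - τ)) * f t) :=
                  ENNReal.ofReal_le_ofReal (mul_le_mul_of_nonneg_right hm (hf0 t))
              _ = ENNReal.ofReal (∫ τ in Icc a b, PW W (t - τ) * f t) := by rw [integral_mul_const]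
              _ = ∫⁻ τ in Icc a b, ENNReal.ofReal (PW W (t - τ) * f t) := by
                  rw [ofReal_integral_eq_lintegral_ofReal (hci.mul_const _) (Eventually.of_forall fun τ => hPnn τ t)]
        _ ≤ ∫⁻ t, ∫⁻ τ in Icc a b, ENNReal.ofReal (PW W (t - τ) * f t) := setLIntegral_le_lintegral _ _
    · exact (ENNReal.measurable_ofReal.comp hPc.measurable).aemeasurable
  have h3 : ∫ t in Icc c d, (1 - W / H) * f t = (∫⁻ t in Icc c d, ENNReal.ofReal ((1 - W / H) * f t)).toReal := by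
    rw [integral_eq_lintegral_of_nonneg_ae (Eventually.of_forall fun t => mul_nonneg hη.le (hf0 t))]
    exact (continuous_const.mul hf).aestronglyMeasurable
  rw [← integral_const_mul, h3]
  refine (ENNReal.toReal_mono ENNReal.ofReal_ne_top (h2.trans h1)).trans ?_
  rw [ENNReal.toReal_ofReal (mul_nonneg (by linarith) hK0)]

lemma DP_eq (Q : Finset ℕ) (hQ : ∀ p ∈ Q, p.Prime) (r : ℕ → ℝ) (t : ℝ) :
    DP Q r t = ∑ p ∈ Q, ((r p / √p : ℝ) : ℂ) * Pool.Agent.Helper65.UG.ee (p ^ 1) t := by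
  unfold DP
  refine Finset.sum_congr rfl fun p hp => ?_
  have hp0 : (0:ℝ) < p := by exact_mod_cast (hQ p hp).pos
  have hp1 : (p : ℂ) ≠ 0 := by exact_mod_cast hp0.ne'
  rw [pow_one]
  have h1 : (p : ℂ) ^ (-((1 / 2 : ℂ) + (t : ℂ) * Complex.I)) = ((1 / √p : ℝ) : ℂ) * Pool.Agent.Helper65.UG.ee p t := by
    have h0 : ((1 / √(p : ℝ) : ℝ) : ℂ) = (p : ℂ) ^ (-(1 / 2 : ℂ)) := by
      rw [Real.sqrt_eq_rpow, one_div, ← Real.rpow_neg hp0.le, Complex.ofReal_cpow hp0.le]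
      push_cast
      rfl
    rw [neg_add, Complex.cpow_add _ _ hp1, h0]
    congr 1
    unfold Pool.Agent.Helper65.UG.ee
    rw [Complex.cpow_def_of_ne_zero hp1, ← Complex.ofReal_natCast, ← Complex.ofReal_log hp0.le]
    congr 1
    push_cast
    ring
  rw [h1]
  push_cast
  ring

lemma DP_cont (Q : Finset ℕ) (hQ : ∀ p ∈ Q, p.Prime) (r : ℕ → ℝ) : Continuous (DP Q r) := by
  have : DP Q r = fun t => ∑ p ∈ Q, ((r p / √p : ℝ) : ℂ) * Pool.Agent.Helper65.UG.ee (p ^ 1) t := funext fun t => DP_eq Q hQ r t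
  rw [this]
  exact continuous_finsetSum Q fun p _ => continuous_const.mul (ee_cont _)

/-- A3: moments of a sum over primes -/
theorem mom : ∃ T₀ : ℝ, ∀ T L : ℝ, T₀ ≤ T → 1 ≤ L → ∀ (Q : Finset ℕ) (r : ℕ → ℝ) (k : ℕ), (∀ p ∈ Q, p.Prime ∧ (p : ℝ) ≤ L) →
    L ^ k ≤ T ^ (1 / 4 : ℝ) →
    ∫ t in JJ T, ‖DP Q r t‖ ^ (2 * k) ≤ 4 * k.factorial * (∑ p ∈ Q, r p ^ 2 / p) ^ k * T := by
  refine ⟨10 ^ 12, fun T L hT hL Q r k hQ hk => ?_⟩
  have hT0 : (0:ℝ) < T := by linarith [show (0:ℝ) < 10 ^ 12 by norm_num]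
  have hT1 : (1:ℝ) ≤ T := by linarith [show (1:ℝ) ≤ 10 ^ 12 by norm_num]
  have hP : ∀ p ∈ Q, p.Prime := fun p hp => (hQ p hp).1
  set N : ℕ := ⌊L⌋₊ with hN
  have hN1 : 1 ≤ N := Nat.le_floor (by exact_mod_cast hL)
  have hNL : (N : ℝ) ≤ L := Nat.floor_le (by linarith)
  have hQN : ∀ p ∈ Q, p ^ 1 ≤ N := fun p hp => by
    rw [pow_one]
    exact Nat.le_floor (hQ p hp).2
  set V : ℝ := ∑ p ∈ Q, r p ^ 2 / p with hV
  have hV0 : 0 ≤ V := Finset.sum_nonneg fun p _ => by positivity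
  set a : ℕ → ℂ := fun p => ((r p / √p : ℝ) : ℂ) with ha
  have hVa : ∑ p ∈ Q, ‖a p‖ ^ 2 = V := by
    refine Finset.sum_congr rfl fun p hp => ?_
    rw [ha]
    simp only
    rw [Complex.norm_real, Real.norm_eq_abs, sq_abs, div_pow, Real.sq_sqrt (Nat.cast_nonneg _)]
  have hW : (0:ℝ) < √T := Real.sqrt_pos.2 hT0
  -- the sum of the coefficients
  have hS : (∑ p ∈ Q, ‖a p‖) ^ (2 * k) ≤ L ^ k * V ^ k := by
    rw [pow_mul, ← mul_pow]
    refine pow_le_pow_left₀ (sq_nonneg _) ?_ k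
    refine sq_sum_le_card_mul_sum_sq.trans ?_
    rw [hVa]
    refine mul_le_mul_of_nonneg_right ?_ hV0
    have h1 : Q ⊆ Finset.Icc 1 N := by
      intro p hp
      rw [Finset.mem_Icc]
      exact ⟨(hP p hp).pos, by simpa using hQN p hp⟩
    have h2 := Finset.card_le_card h1
    rw [Nat.card_Icc] at h2
    have h3 : (Q.card : ℝ) ≤ N := by exact_mod_cast (by omega : Q.card ≤ N)
    linarith
  set x : ℝ := T ^ (1 / 4 : ℝ) with hx
  have hx2 : x ^ 2 = √T := by
    rw [hx, Real.sqrt_eq_rpow, ← Real.rpow_natCast, ← Real.rpow_mul hT0.le]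
    norm_num
  have hx0 : 0 < x := Real.rpow_pos_of_pos hT0 _
  have hx1000 : 1000 ≤ x := by
    have h1 : ((10:ℝ) ^ 12) ^ (1 / 4 : ℝ) ≤ T ^ (1 / 4 : ℝ) := Real.rpow_le_rpow (by norm_num) hT (by norm_num)
    have h2 : ((10:ℝ) ^ 12) ^ (1 / 4 : ℝ) = 1000 := by
      rw [show (10:ℝ) ^ 12 = 1000 ^ (4:ℝ) by norm_num, ← Real.rpow_mul (by norm_num)]
      norm_num
    linarith
  have hNk : (N : ℝ) ^ k ≤ x := (pow_le_pow_left₀ (Nat.cast_nonneg _) hNL k).trans hk
  have hNk0 : (0:ℝ) < (N : ℝ) ^ k := by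
    have : (0:ℝ) < N := by exact_mod_cast hN1
    positivity
  have hexp : L ^ k * Real.exp (-(√T / (N : ℝ) ^ k)) ≤ 1 / 100 := by
    have h1 : x ≤ √T / (N : ℝ) ^ k := by
      rw [le_div_iff₀ hNk0, ← hx2, sq]
      exact mul_le_mul_of_nonneg_left hNk hx0.le
    have h2 : Real.exp (-(√T / (N : ℝ) ^ k)) ≤ Real.exp (-x) := Real.exp_le_exp.2 (by linarith)
    have h3 : x ^ 2 / 2 ≤ Real.exp x := by
      have := Real.quadratic_le_exp_of_nonneg hx0.le
      linarith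
    calc L ^ k * Real.exp (-(√T / (N : ℝ) ^ k)) ≤ x * Real.exp (-x) :=
          mul_le_mul hk h2 (Real.exp_pos _).le hx0.le
      _ ≤ 1 / 100 := by
          rw [Real.exp_neg, ← div_eq_mul_inv, div_le_div_iff₀ (Real.exp_pos _) (by norm_num)]
          nlinarith
  -- the Poisson means
  have hK : ∀ τ : ℝ, Integrable (fun t => PW (√T) (t - τ) * ‖DP Q r t‖ ^ (2 * k)) ∧
      ∫ t, PW (√T) (t - τ) * ‖DP Q r t‖ ^ (2 * k) ≤ 101 / 100 * (k.factorial * V ^ k) := by
    intro τ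
    have h1 := pmom (P := Q) (e := 1) (N := N) hP (by norm_num) hQN a hW τ k
    have h2 : ∀ t, ‖DP Q r t‖ = ‖∑ p ∈ Q, a p * Pool.Agent.Helper65.UG.ee (p ^ 1) t‖ := fun t => by rw [DP_eq Q hP r t]
    simp_rw [h2]
    refine ⟨h1.1, h1.2.trans ?_⟩
    rw [hVa]
    have h3 : (1:ℝ) ≤ k.factorial := by exact_mod_cast Nat.one_le_iff_ne_zero.2 (Nat.factorial_ne_zero k)
    have h4 : (∑ p ∈ Q, ‖a p‖) ^ (2 * k) * Real.exp (-(√T / (N : ℝ) ^ k)) ≤ 1 / 100 * (k.factorial * V ^ k) := by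
      calc (∑ p ∈ Q, ‖a p‖) ^ (2 * k) * Real.exp (-(√T / (N : ℝ) ^ k))
          ≤ (L ^ k * V ^ k) * Real.exp (-(√T / (N : ℝ) ^ k)) := mul_le_mul_of_nonneg_right hS (Real.exp_pos _).le
        _ = (L ^ k * Real.exp (-(√T / (N : ℝ) ^ k))) * V ^ k := by ring
        _ ≤ 1 / 100 * V ^ k := mul_le_mul_of_nonneg_right hexp (pow_nonneg hV0 k)
        _ ≤ 1 / 100 * (k.factorial * V ^ k) := by
            have := pow_nonneg hV0 k
            nlinarith
    linarith
  have hB0 : 0 ≤ 101 / 100 * (k.factorial * V ^ k) := by positivity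
  have hT16 : (0:ℝ) < T / 16 := by linarith
  have hsq : √T ≤ T / 1000000 := by
    rw [Real.sqrt_le_left (by positivity)]
    have : T * 10 ^ 12 ≤ T * T := mul_le_mul_of_nonneg_left hT hT0.le
    nlinarith
  have hmain := avg56 (W := √T) (H := T / 16) (a := T / 2 - T / 16) (b := 4 * T + T / 16) (c := T / 2) (d := 4 * T)
    (K := 101 / 100 * (k.factorial * V ^ k)) hW hT16 (by linarith) (f := fun t => ‖DP Q r t‖ ^ (2 * k))
    (((DP_cont Q hP r).norm).pow _) (fun t => by positivity) (by linarith) (by linarith) (by linarith) hB0 hK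
  have hI0 : 0 ≤ ∫ t in Icc (T / 2) (4 * T), ‖DP Q r t‖ ^ (2 * k) :=
    integral_nonneg fun t => by positivity
  have h5 : 99 / 100 ≤ 1 - √T / (T / 16) := by
    have : √T / (T / 16) ≤ 1 / 100 := by
      rw [div_le_iff₀ hT16]
      linarith
    linarith
  have h6 : 99 / 100 * ∫ t in Icc (T / 2) (4 * T), ‖DP Q r t‖ ^ (2 * k) ≤
      (4 * T + T / 16 - (T / 2 - T / 16)) * (101 / 100 * (k.factorial * V ^ k)) :=
    (mul_le_mul_of_nonneg_right h5 hI0).trans hmain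
  unfold JJ
  have h7 : 0 ≤ T * (k.factorial * V ^ k) := by positivity
  nlinarith

/-- A4: its tail -/
theorem mom_tail : ∃ T₀ : ℝ, ∀ T L : ℝ, T₀ ≤ T → 1 ≤ L → ∀ (Q : Finset ℕ) (r : ℕ → ℝ) (k : ℕ), (∀ p ∈ Q, p.Prime ∧ (p : ℝ) ≤ L) →
    L ^ k ≤ T ^ (1 / 4 : ℝ) → ∀ V : ℝ, 0 < V →
    volume {t : ℝ | t ∈ JJ T ∧ V ≤ ‖DP Q r t‖} ≤
      ENNReal.ofReal (4 * k.factorial * ((∑ p ∈ Q, r p ^ 2 / p) / V ^ 2) ^ k * T) := by
  obtain ⟨T₀, h⟩ := mom
  refine ⟨T₀, fun T L hT hL Q r k hQ hk V hV => ?_⟩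
  have h1 := h T L hT hL Q r k hQ hk
  have hP : ∀ p ∈ Q, p.Prime := fun p hp => (hQ p hp).1
  have hc : Continuous fun t => ‖DP Q r t‖ ^ (2 * k) := ((DP_cont Q hP r).norm).pow _
  have hint : IntegrableOn (fun t => ‖DP Q r t‖ ^ (2 * k)) (JJ T) := hc.integrableOn_Icc
  have hVk : 0 < V ^ (2 * k) := by positivity
  have h2 : ENNReal.ofReal (V ^ (2 * k)) * volume {t : ℝ | t ∈ JJ T ∧ V ≤ ‖DP Q r t‖} ≤
      ∫⁻ t in JJ T, ENNReal.ofReal (‖DP Q r t‖ ^ (2 * k)) := by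
    have hms : MeasurableSet {t : ℝ | t ∈ JJ T ∧ V ≤ ‖DP Q r t‖} :=
      measurableSet_Icc.inter (measurableSet_le measurable_const (DP_cont Q hP r).norm.measurable)
    calc ENNReal.ofReal (V ^ (2 * k)) * volume {t : ℝ | t ∈ JJ T ∧ V ≤ ‖DP Q r t‖}
        = ∫⁻ _ in {t : ℝ | t ∈ JJ T ∧ V ≤ ‖DP Q r t‖}, ENNReal.ofReal (V ^ (2 * k)) := by rw [setLIntegral_const]
      _ ≤ ∫⁻ t in {t : ℝ | t ∈ JJ T ∧ V ≤ ‖DP Q r t‖}, ENNReal.ofReal (‖DP Q r t‖ ^ (2 * k)) := by
          refine setLIntegral_mono' hms fun t ht => ENNReal.ofReal_le_ofReal ?_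
          exact pow_le_pow_left₀ hV.le ht.2 _
      _ ≤ _ := lintegral_mono_set fun t ht => ht.1
  rw [← ofReal_integral_eq_lintegral_ofReal hint (Eventually.of_forall fun t => by positivity)] at h2
  have h3 := h2.trans (ENNReal.ofReal_le_ofReal h1)
  have h4 : volume {t : ℝ | t ∈ JJ T ∧ V ≤ ‖DP Q r t‖} ≤
      ENNReal.ofReal (4 * k.factorial * (∑ p ∈ Q, r p ^ 2 / p) ^ k * T) / ENNReal.ofReal (V ^ (2 * k)) := by
    rw [ENNReal.le_div_iff_mul_le (Or.inl (by simpa using hVk)) (Or.inl ENNReal.ofReal_ne_top), mul_comm]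
    exact h3
  rw [← ENNReal.ofReal_div_of_pos hVk] at h4
  refine h4.trans (ENNReal.ofReal_le_ofReal (le_of_eq ?_))
  rw [div_pow, ← pow_mul]
  field_simp

end Pool.Agent.Helper56.TX

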