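import Pool.Agent.Helper65.UG.Mv

/-!
# TX: high moments of sums over primes, Poisson kernel

`∫ PW W (t - τ) |∑_{p ∈ P} a_p p^(-iet)|^(2k) ≤ k! (∑ |a_p|²)^k + (∑ |a_p|)^(2k) exp(-W/N^k)`, `p^e ≤ N`.
-/

set_option autoImplicit false
open MeasureTheory Set Filter Topology
open Pool.Agent.Helper57.Zeta Pool.Agent.Helper57.LH Pool.Agent.Helper57.ED Pool.Agent.Helper54.LG
open Pool.Agent.Helper65.UG

namespace Pool.Agent.Helper56.TX

/-- The coefficients of the `k`-th power. -/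
noncomputable def G (P : Finset ℕ) (e : ℕ) (a : ℕ → ℂ) : ℕ → ℕ → ℂ
  | 0, n => if n = 1 then 1 else 0
  | k + 1, n => ∑ p ∈ P, if p ^ e ∣ n then a p * G P e a k (n / p ^ e) else 0

lemma sum_div {M : Type*} [AddCommMonoid M] {A N q : ℕ} (hq : 1 ≤ q) (hqN : q ≤ N) (f : ℕ → M)
    (hf : ∀ m, A < m → f m = 0) :
    ∑ n ∈ Finset.Icc 1 (A * N), (if q ∣ n then f (n / q) else 0) = ∑ m ∈ Finset.Icc 1 A, f m := by
  rw [← Finset.sum_filter]
  symm
  have h1 : ∑ m ∈ Finset.Icc 1 A, f m = ∑ n ∈ (Finset.Icc 1 A).image (fun m => q * m), f (n / q) := by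
    rw [Finset.sum_image]
    · refine Finset.sum_congr rfl fun m _ => ?_
      rw [Nat.mul_div_cancel_left _ (by omega)]
    · intro x _ y _ hxy
      exact Nat.eq_of_mul_eq_mul_left (by omega) hxy
  rw [h1]
  refine Finset.sum_subset ?_ ?_
  · intro n hn
    obtain ⟨m, hm, rfl⟩ := Finset.mem_image.1 hn
    rw [Finset.mem_Icc] at hm
    rw [Finset.mem_filter, Finset.mem_Icc]
    refine ⟨⟨?_, ?_⟩, dvd_mul_right _ _⟩
    · nlinarith
    · calc q * m ≤ N * A := Nat.mul_le_mul hqN hm.2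
        _ = A * N := mul_comm _ _
  · intro n hn hn'
    rw [Finset.mem_filter, Finset.mem_Icc] at hn
    obtain ⟨m, rfl⟩ := hn.2
    rw [Nat.mul_div_cancel_left _ (by omega)]
    apply hf
    by_contra hcon
    rw [not_lt] at hcon
    refine hn' (Finset.mem_image.2 ⟨m, Finset.mem_Icc.2 ⟨?_, hcon⟩, rfl⟩)
    rcases Nat.eq_zero_or_pos m with h | h
    · rw [h, mul_zero] at hn
      omega
    · exact h

variable {P : Finset ℕ} {e : ℕ} {a : ℕ → ℂ} {N : ℕ}

lemma G_supp (hP : ∀ p ∈ P, p.Prime) (hN : ∀ p ∈ P, p ^ e ≤ N) (k : ℕ) : ∀ n, G P e a k n ≠ 0 → 1 ≤ n ∧ n ≤ N ^ k := by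
  induction k with
  | zero =>
    intro n hn
    by_cases h : n = 1
    · subst h
      simp
    · exact absurd (by simp [G, h]) hn
  | succ k ih =>
    intro n hn
    rw [G] at hn
    obtain ⟨p, hp, hp2⟩ := Finset.exists_ne_zero_of_sum_ne_zero hn
    by_cases hd : p ^ e ∣ n
    · rw [if_pos hd] at hp2
      obtain ⟨m, rfl⟩ := hd
      have hpos : 0 < p ^ e := pow_pos (hP p hp).pos e
      rw [Nat.mul_div_cancel_left _ hpos] at hp2
      obtain ⟨h1, h2⟩ := ih m (right_ne_zero_of_mul hp2)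
      refine ⟨by nlinarith, ?_⟩
      rw [pow_succ, mul_comm (N ^ k)]
      exact Nat.mul_le_mul (hN p hp) h2
    · rw [if_neg hd] at hp2
      exact absurd rfl hp2

lemma G_omega (hP : ∀ p ∈ P, p.Prime) (he : e ≠ 0) (k : ℕ) : ∀ n, G P e a k n ≠ 0 → n.primeFactors.card ≤ k := by
  induction k with
  | zero =>
    intro n hn
    by_cases h : n = 1
    · subst h
      simp
    · exact absurd (by simp [G, h]) hn
  | succ k ih =>
    intro n hn
    rw [G] at hn
    obtain ⟨p, hp, hp2⟩ := Finset.exists_ne_zero_of_sum_ne_zero hn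
    by_cases hd : p ^ e ∣ n
    · rw [if_pos hd] at hp2
      obtain ⟨m, rfl⟩ := hd
      have hpos : 0 < p ^ e := pow_pos (hP p hp).pos e
      rw [Nat.mul_div_cancel_left _ hpos] at hp2
      have h1 := ih m (right_ne_zero_of_mul hp2)
      have hm : m ≠ 0 := by
        rintro rfl
        have := (G_supp (e := e) (a := a) (N := P.sup (fun p => p ^ e)) hP
          (fun q hq => Finset.le_sup (f := fun p => p ^ e) hq) k 0 (right_ne_zero_of_mul hp2)).1
        omega
      rw [Nat.primeFactors_mul hpos.ne' hm, Nat.primeFactors_pow _ he, (hP p hp).primeFactors]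
      refine (Finset.card_union_le _ _).trans ?_
      rw [Finset.card_singleton]
      omega
    · rw [if_neg hd] at hp2
      exact absurd rfl hp2

lemma pow_expand (hP : ∀ p ∈ P, p.Prime) (hN : ∀ p ∈ P, p ^ e ≤ N) (t : ℝ) (k : ℕ) :
    (∑ p ∈ P, a p * ee (p ^ e) t) ^ k = ∑ n ∈ Finset.Icc 1 (N ^ k), G P e a k n * ee n t := by
  induction k with
  | zero =>
    rw [pow_zero, pow_zero, Finset.Icc_self, Finset.sum_singleton]
    simp [G, ee]
  | succ k ih =>
    rw [pow_succ, ih, mul_comm, Finset.sum_mul]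
    have h1 : ∀ n, G P e a (k + 1) n * ee n t =
        ∑ p ∈ P, (if p ^ e ∣ n then a p * ee (p ^ e) t * (G P e a k (n / p ^ e) * ee (n / p ^ e) t) else 0) := by
      intro n
      rw [G, Finset.sum_mul]
      refine Finset.sum_congr rfl fun p hp => ?_
      have hpos : 0 < p ^ e := pow_pos (hP p hp).pos e
      by_cases hd : p ^ e ∣ n
      · rw [if_pos hd, if_pos hd]
        obtain ⟨m, rfl⟩ := hd
        rw [Nat.mul_div_cancel_left _ hpos]
        by_cases hm : m = 0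
        · have h0 : G P e a k m = 0 := by
            by_contra h
            have := (G_supp (e := e) (a := a) (N := N) hP hN k m h).1
            omega
          rw [h0]
          ring
        · rw [ee_mul hpos.ne' hm]
          ring
      · rw [if_neg hd, if_neg hd, zero_mul]
    simp_rw [h1]
    rw [Finset.sum_comm]
    refine Finset.sum_congr rfl fun p hp => ?_
    rw [pow_succ, sum_div (Nat.one_le_iff_ne_zero.2 (pow_pos (hP p hp).pos e).ne') (hN p hp)
      (fun m => a p * ee (p ^ e) t * (G P e a k m * ee m t)), Finset.mul_sum]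
    intro m hm
    have h0 : G P e a k m = 0 := by
      by_contra h
      have := (G_supp (e := e) (a := a) (N := N) hP hN k m h).2
      omega
    rw [h0]
    ring

lemma G_sq (hP : ∀ p ∈ P, p.Prime) (he : e ≠ 0) (hN : ∀ p ∈ P, p ^ e ≤ N) (k : ℕ) :
    ∑ n ∈ Finset.Icc 1 (N ^ k), ‖G P e a k n‖ ^ 2 ≤ k.factorial * (∑ p ∈ P, ‖a p‖ ^ 2) ^ k := by
  induction k with
  | zero =>
    rw [pow_zero, pow_zero, Finset.Icc_self, Finset.sum_singleton]
    simp [G]
  | succ k ih =>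
    have h1 : ∀ n, ‖G P e a (k + 1) n‖ ^ 2 ≤
        (k + 1) * ∑ p ∈ P, (if p ^ e ∣ n then ‖a p‖ ^ 2 * ‖G P e a k (n / p ^ e)‖ ^ 2 else 0) := by
      intro n
      classical
      by_cases h0 : G P e a (k + 1) n = 0
      · rw [h0, norm_zero]
        have h9 : 0 ≤ ∑ p ∈ P, (if p ^ e ∣ n then ‖a p‖ ^ 2 * ‖G P e a k (n / p ^ e)‖ ^ 2 else 0) :=
          Finset.sum_nonneg fun p _ => by split_ifs <;> positivity
        have h8 : (0:ℝ) ≤ (k:ℝ) + 1 := by positivity
        nlinarith [mul_nonneg h8 h9]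
      have hcard := G_omega (a := a) hP he (k + 1) n h0
      have hn0 : n ≠ 0 := by
        have := (G_supp (e := e) (a := a) (N := N) hP hN (k + 1) n h0).1
        omega
      have h2 : G P e a (k + 1) n = ∑ p ∈ P.filter (fun p => p ^ e ∣ n), a p * G P e a k (n / p ^ e) := by
        rw [G, Finset.sum_filter]
      have h3 : ((P.filter (fun p => p ^ e ∣ n)).card : ℝ) ≤ k + 1 := by
        have h4 : P.filter (fun p => p ^ e ∣ n) ⊆ n.primeFactors := by
          intro p hp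
          rw [Finset.mem_filter] at hp
          rw [Nat.mem_primeFactors]
          exact ⟨hP p hp.1, (dvd_pow_self p he).trans hp.2, hn0⟩
        have h5 := (Finset.card_le_card h4).trans hcard
        exact_mod_cast h5
      rw [h2]
      calc ‖∑ p ∈ P.filter (fun p => p ^ e ∣ n), a p * G P e a k (n / p ^ e)‖ ^ 2
          ≤ (∑ p ∈ P.filter (fun p => p ^ e ∣ n), ‖a p * G P e a k (n / p ^ e)‖) ^ 2 :=
            pow_le_pow_left₀ (norm_nonneg _) (norm_sum_le _ _) 2
        _ ≤ ((P.filter (fun p => p ^ e ∣ n)).card : ℝ) * ∑ p ∈ P.filter (fun p => p ^ e ∣ n), ‖a p * G P e a k (n / p ^ e)‖ ^ 2 :=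
            sq_sum_le_card_mul_sum_sq
        _ ≤ (k + 1) * ∑ p ∈ P.filter (fun p => p ^ e ∣ n), ‖a p * G P e a k (n / p ^ e)‖ ^ 2 :=
            mul_le_mul_of_nonneg_right h3 (Finset.sum_nonneg fun _ _ => sq_nonneg _)
        _ = _ := by
            rw [Finset.sum_filter]
            congr 1
            refine Finset.sum_congr rfl fun p _ => ?_
            split_ifs
            · rw [norm_mul, mul_pow]
            · rfl
    calc ∑ n ∈ Finset.Icc 1 (N ^ (k + 1)), ‖G P e a (k + 1) n‖ ^ 2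
        ≤ ∑ n ∈ Finset.Icc 1 (N ^ (k + 1)),
          (k + 1) * ∑ p ∈ P, (if p ^ e ∣ n then ‖a p‖ ^ 2 * ‖G P e a k (n / p ^ e)‖ ^ 2 else 0) :=
          Finset.sum_le_sum fun n _ => h1 n
      _ = (k + 1) * ∑ p ∈ P, ‖a p‖ ^ 2 * ∑ m ∈ Finset.Icc 1 (N ^ k), ‖G P e a k m‖ ^ 2 := by
          rw [← Finset.mul_sum, Finset.sum_comm]
          congr 1
          refine Finset.sum_congr rfl fun p hp => ?_
          rw [pow_succ, sum_div (Nat.one_le_iff_ne_zero.2 (pow_pos (hP p hp).pos e).ne') (hN p hp)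
            (fun m => ‖a p‖ ^ 2 * ‖G P e a k m‖ ^ 2), Finset.mul_sum]
          intro m hm
          have h0 : G P e a k m = 0 := by
            by_contra h
            have := (G_supp (e := e) (a := a) (N := N) hP hN k m h).2
            omega
          rw [h0]
          simp
      _ = (k + 1) * ((∑ p ∈ P, ‖a p‖ ^ 2) * ∑ m ∈ Finset.Icc 1 (N ^ k), ‖G P e a k m‖ ^ 2) := by
          rw [Finset.sum_mul]
      _ ≤ (k + 1) * ((∑ p ∈ P, ‖a p‖ ^ 2) * (k.factorial * (∑ p ∈ P, ‖a p‖ ^ 2) ^ k)) := by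
          gcongr
      _ = _ := by
          rw [Nat.factorial_succ]
          push_cast
          ring

lemma G_one (hP : ∀ p ∈ P, p.Prime) (hN : ∀ p ∈ P, p ^ e ≤ N) (k : ℕ) :
    ∑ n ∈ Finset.Icc 1 (N ^ k), ‖G P e a k n‖ ≤ (∑ p ∈ P, ‖a p‖) ^ k := by
  induction k with
  | zero =>
    rw [pow_zero, pow_zero, Finset.Icc_self, Finset.sum_singleton]
    simp [G]
  | succ k ih =>
    calc ∑ n ∈ Finset.Icc 1 (N ^ (k + 1)), ‖G P e a (k + 1) n‖
        ≤ ∑ n ∈ Finset.Icc 1 (N ^ (k + 1)), ∑ p ∈ P, (if p ^ e ∣ n then ‖a p‖ * ‖G P e a k (n / p ^ e)‖ else 0) := by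
          refine Finset.sum_le_sum fun n _ => ?_
          rw [G]
          refine (norm_sum_le _ _).trans (Finset.sum_le_sum fun p _ => ?_)
          split_ifs
          · rw [norm_mul]
          · rw [norm_zero]
      _ = ∑ p ∈ P, ‖a p‖ * ∑ m ∈ Finset.Icc 1 (N ^ k), ‖G P e a k m‖ := by
          rw [Finset.sum_comm]
          refine Finset.sum_congr rfl fun p hp => ?_
          rw [pow_succ, sum_div (Nat.one_le_iff_ne_zero.2 (pow_pos (hP p hp).pos e).ne') (hN p hp)
            (fun m => ‖a p‖ * ‖G P e a k m‖), Finset.mul_sum]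
          intro m hm
          have h0 : G P e a k m = 0 := by
            by_contra h
            have := (G_supp (e := e) (a := a) (N := N) hP hN k m h).2
            omega
          rw [h0]
          simp
      _ = (∑ p ∈ P, ‖a p‖) * ∑ m ∈ Finset.Icc 1 (N ^ k), ‖G P e a k m‖ := by
          rw [Finset.sum_mul]
      _ ≤ (∑ p ∈ P, ‖a p‖) * (∑ p ∈ P, ‖a p‖) ^ k := by
          gcongr
      _ = _ := by
          rw [pow_succ]
          ring

/-- High moments of a sum over primes (or over their `e`-th powers). -/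
theorem pmom (hP : ∀ p ∈ P, p.Prime) (he : e ≠ 0) (hN : ∀ p ∈ P, p ^ e ≤ N) (a : ℕ → ℂ) {W : ℝ} (hW : 0 < W) (τ : ℝ) (k : ℕ) :
    Integrable (fun t => PW W (t - τ) * ‖∑ p ∈ P, a p * ee (p ^ e) t‖ ^ (2 * k)) ∧
    ∫ t, PW W (t - τ) * ‖∑ p ∈ P, a p * ee (p ^ e) t‖ ^ (2 * k) ≤
      k.factorial * (∑ p ∈ P, ‖a p‖ ^ 2) ^ k + (∑ p ∈ P, ‖a p‖) ^ (2 * k) * Real.exp (-(W / (N : ℝ) ^ k)) := by
  constructor
  · refine int_PW_bdd hW τ (f := fun t => ‖∑ p ∈ P, a p * ee (p ^ e) t‖ ^ (2 * k)) ?_ (C := (∑ p ∈ P, ‖a p‖) ^ (2 * k)) ?_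
    · refine ((continuous_finsetSum P fun p _ => continuous_const.mul (ee_cont _)).norm).pow _
    · intro t
      rw [abs_of_nonneg (by positivity)]
      refine pow_le_pow_left₀ (norm_nonneg _) ((norm_sum_le _ _).trans (Finset.sum_le_sum fun p _ => ?_)) _
      rw [norm_mul, ee_norm, mul_one]
  · have h1 : ∀ t, ‖∑ p ∈ P, a p * ee (p ^ e) t‖ ^ (2 * k) = ‖∑ n ∈ Finset.Icc 1 (N ^ k), G P e a k n * ee n t‖ ^ 2 := by
      intro t
      rw [← pow_expand hP hN t k, norm_pow, ← pow_mul, mul_comm k 2]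
    simp_rw [h1]
    have h2 := mv hW τ (Finset.Icc 1 (N ^ k)) (fun n => n) (G P e a k) (N := N ^ k)
      (fun n hn => by rw [Finset.mem_Icc] at hn; exact hn)
    refine h2.trans ?_
    have h3 : (∑ i ∈ Finset.Icc 1 (N ^ k), ∑ j ∈ Finset.Icc 1 (N ^ k),
        if i = j then ‖G P e a k i‖ * ‖G P e a k j‖ else 0) = ∑ n ∈ Finset.Icc 1 (N ^ k), ‖G P e a k n‖ ^ 2 := by
      refine Finset.sum_congr rfl fun i hi => ?_
      rw [Finset.sum_ite_eq, if_pos hi, sq]
    rw [h3]
    have h4 := G_sq (a := a) hP he hN k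
    have h5 := G_one (a := a) hP hN k
    have h6 : (∑ n ∈ Finset.Icc 1 (N ^ k), ‖G P e a k n‖) ^ 2 ≤ (∑ p ∈ P, ‖a p‖) ^ (2 * k) := by
      rw [mul_comm 2 k, pow_mul]
      exact pow_le_pow_left₀ (Finset.sum_nonneg fun _ _ => norm_nonneg _) h5 2
    have h7 : ((N ^ k : ℕ) : ℝ) = (N : ℝ) ^ k := by push_cast; rfl
    rw [h7]
    gcongr

end Pool.Agent.Helper56.TX
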